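import Pool.Agent.W97.KE.Stm

/-!
LOCRES: multiples of classes which become locally trivial over `K_{l,∞}`.
-/

set_option autoImplicit false

open scoped Classical

namespace Pool.Agent.W822.KE

open Pool.Agent.W97.KE

/-- an element of `Gal(ℚ̄/K_{1,∞})` fixing the `l`-th roots of unity lies in `Gal(ℚ̄/K_{l,∞})` -/
theorem mem_H (p l : ℕ) (hp : p.Prime) (hl : l.Prime) (g : GQ) (hg : g ∈ H p 1)
    (h : ∀ z : Qb, z ^ l = 1 → g z = z) : g ∈ H p l := by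
  intro n z hz
  rcases eq_or_ne l p with rfl | hne
  · refine hg (n + 1) z ?_
    rw [one_mul, pow_succ']
    exact hz
  · have hco : Nat.Coprime l (p ^ (n + 1)) :=
      Nat.Coprime.pow_right _ ((Nat.coprime_primes hl hp).2 hne)
    have hz0 : z ≠ 0 := by
      rintro rfl
      have : l * p ^ (n + 1) ≠ 0 := mul_ne_zero hl.ne_zero (pow_ne_zero _ hp.ne_zero)
      rw [zero_pow this] at hz
      exact zero_ne_one hz
    have h1 : g (z ^ l) = z ^ l := by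
      refine hg n (z ^ l) ?_
      rw [one_mul, ← pow_mul]
      exact hz
    have h2 : g (z ^ p ^ (n + 1)) = z ^ p ^ (n + 1) := by
      refine h _ ?_
      rw [← pow_mul, mul_comm]
      exact hz
    have h3 : (g z / z) ^ l = 1 := by
      rw [div_pow, ← map_pow, h1, div_self (pow_ne_zero _ hz0)]
    have h4 : (g z / z) ^ p ^ (n + 1) = 1 := by
      rw [div_pow, ← map_pow, h2, div_self (pow_ne_zero _ hz0)]
    have h5 := pow_gcd_eq_one.2 ⟨h3, h4⟩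
    rw [hco, pow_one] at h5
    rwa [div_eq_one_iff_eq hz0] at h5

/-- the roots of unity of `Ω` come from `ℚ̄` -/
theorem root_mem {Ω : Type} [Field Ω] (ι : Qb →+* Ω) (M : ℕ) (hM : 0 < M) (z : Ω)
    (hz : z ^ M = 1) : ∃ x : Qb, x ^ M = 1 ∧ ι x = z := by
  have : NeZero M := ⟨hM.ne'⟩
  obtain ⟨ζ, hζ⟩ := HasEnoughRootsOfUnity.exists_primitiveRoot Qb M
  have h1 : IsPrimitiveRoot (ι ζ) M := hζ.map_of_injective ι.injective
  obtain ⟨i, _, hi⟩ := h1.eq_pow_of_pow_eq_one hz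
  refine ⟨ζ ^ i, ?_, ?_⟩
  · rw [← pow_mul, mul_comm, pow_mul, hζ.pow_eq_one, one_pow]
  · rw [map_pow, hi]

section
variable (W : WeierstrassCurve ℤ) (p l : ℕ) {k Ω : Type} [Field k] [Field Ω] [Algebra k Ω]
  (ι : Qb →+* Ω)

/-- the pairs of compatible automorphisms of `ℚ̄` and `Ω` -/
def G : Subgroup (GQ × (Ω ≃ₐ[k] Ω)) where
  carrier := {z | z.1 ∈ H p 1 ∧ ∀ x : Qb, ι (z.1 x) = z.2 (ι x)}
  mul_mem' := by
    rintro z w ⟨h1, h2⟩ ⟨h3, h4⟩
    refine ⟨(H p 1).mul_mem h1 h3, fun x => ?_⟩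
    change ι (z.1 (w.1 x)) = z.2 (w.2 (ι x))
    rw [h2, h4]
  one_mem' := ⟨(H p 1).one_mem, fun x => rfl⟩
  inv_mem' := by
    rintro z ⟨h1, h2⟩
    refine ⟨(H p 1).inv_mem h1, fun x => ?_⟩
    change ι (z.1.symm x) = z.2.symm (ι x)
    have h3 := h2 (z.1.symm x)
    rw [AlgEquiv.apply_symm_apply] at h3
    rw [h3, AlgEquiv.symm_apply_apply]

/-- the action on the points -/
noncomputable def ac (τ : Ω ≃ₐ[k] Ω) : Pt W Ω →+ Pt W Ω := mapPt W (τ : Ω →+* Ω)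

theorem ac_mul (τ σ : Ω ≃ₐ[k] Ω) (Q : Pt W Ω) : ac W (τ * σ) Q = ac W τ (ac W σ Q) := by
  cases Q <;> rfl

theorem map_act (g : GQ) (τ : Ω ≃ₐ[k] Ω) (h : ∀ x : Qb, ι (g x) = τ (ι x)) (Q : Pt W Qb) :
    mapPt W ι (act W g Q) = ac W τ (mapPt W ι Q) := by
  unfold act ac
  rw [mapPt_comp, mapPt_comp]
  congr 1
  exact congrArg (fun f => mapPt W f) (RingHom.ext h)

end

theorem s_locres : S_LOCRES := by
  intro W p l hp hl k Ω _ _ _ _ _ d hd hloc N hN hfix ι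
  obtain ⟨P, hP⟩ := hloc ι
  have : NeZero l := ⟨hl.ne_zero⟩
  have : Fact l.Prime := ⟨hl⟩
  obtain ⟨μ, hμ⟩ := HasEnoughRootsOfUnity.exists_primitiveRoot Qb l
  -- the character
  let χ : ↥(G (k := k) p ι) →* (ZMod l)ˣ :=
    (hμ.autToPow ℚ).comp ((MonoidHom.fst GQ (Ω ≃ₐ[k] Ω)).comp (Subgroup.subtype _))
  have hχ : ∀ z, χ z = 1 → z.1.1 ∈ H p l := by
    intro z hz
    apply mem_H p l hp hl _ z.2.1
    have h1 : z.1.1 μ = μ := by
      have h2 := hμ.autToPow_spec ℚ z.1.1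
      have h3 : hμ.autToPow ℚ z.1.1 = 1 := hz
      rw [h3] at h2
      rw [← h2]
      rcases eq_or_ne l 1 with rfl | hl1
      · exact absurd rfl hl.ne_one
      · have : Fact (1 < l) := ⟨hl.one_lt⟩
        simp [ZMod.val_one]
    intro x hx
    obtain ⟨i, _, hi⟩ := hμ.eq_pow_of_pow_eq_one hx
    rw [← hi, map_pow, h1]
  have hχN : ∀ z, χ z ^ N = 1 := by
    intro z
    rw [← map_pow]
    have h1 : ∀ x : Qb, x ^ l = 1 → (z.1.1 ^ N) x = x := by
      intro x hx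
      apply ι.injective
      have h2 : ι ((z.1.1 ^ N) x) = (z.1.2 ^ N) (ι x) := (z ^ N).2.2 x
      rw [h2]
      apply hfix z.1.2
      · intro n w hw
        obtain ⟨y, hy1, hy2⟩ := root_mem ι (p ^ (n + 1)) (pow_pos hp.pos _) w hw
        rw [← hy2, ← z.2.2 y, z.2.1 n y (by rw [one_mul]; exact hy1)]
      · rw [← map_pow, hx, map_one]
    have h2 := hμ.autToPow_spec ℚ (z.1.1 ^ N)
    rw [h1 μ hμ.pow_eq_one] at h2
    have h3 : χ (z ^ N) = hμ.autToPow ℚ (z.1.1 ^ N) := rfl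
    rw [h3]
    have : Fact (1 < l) := ⟨hl.one_lt⟩
    have h4 : μ ^ ((hμ.autToPow ℚ (z.1.1 ^ N) : (ZMod l)ˣ) : ZMod l).val = μ ^ 1 := by
      rw [h2, pow_one]
    have h5 := hμ.pow_inj (ZMod.val_lt _) hl.one_lt h4
    apply Units.ext
    apply ZMod.val_injective
    rw [h5, Units.val_one, ZMod.val_one]
  -- the cocycle
  let b : ↥(G (k := k) p ι) → Pt W Ω := fun z =>
    mapPt W ι (d ⟨z.1.1, z.2.1⟩) - (ac W z.1.2 P - P)
  have hb : ∀ z w, b (z * w) = b z + ac W z.1.2 (b w) := by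
    intro z w
    have h1 : d ⟨(z * w).1.1, (z * w).2.1⟩ =
        d ⟨z.1.1, z.2.1⟩ + act W z.1.1 (d ⟨w.1.1, w.2.1⟩) := hd.mul ⟨z.1.1, z.2.1⟩ ⟨w.1.1, w.2.1⟩
    change mapPt W ι (d ⟨(z * w).1.1, (z * w).2.1⟩) - (ac W (z.1.2 * w.1.2) P - P) =
      (mapPt W ι (d ⟨z.1.1, z.2.1⟩) - (ac W z.1.2 P - P)) +
      ac W z.1.2 (mapPt W ι (d ⟨w.1.1, w.2.1⟩) - (ac W w.1.2 P - P))
    rw [h1, map_add, map_act W ι z.1.1 z.1.2 z.2.2, ac_mul, map_sub, map_sub]
    abel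
  have hb0 : ∀ z, χ z = 1 → b z = 0 := by
    intro z hz
    have h1 := hP ⟨z.1.1, hχ z hz⟩ z.1.2 z.2.2
    exact sub_eq_zero.2 h1
  have hbχ : ∀ z w, χ z = χ w → b z = b w := by
    intro z w hzw
    have h1 : χ (z⁻¹ * w) = 1 := by
      rw [map_mul, map_inv, hzw, inv_mul_cancel]
    have h2 := hb z (z⁻¹ * w)
    rw [hb0 _ h1, map_zero, add_zero, mul_inv_cancel_left] at h2
    exact h2.symm
  -- the sum over the image of the character
  let sec : χ.range → (G p ι : Subgroup (GQ × (Ω ≃ₐ[k] Ω))) := fun r => (r.2).choose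
  have hsec : ∀ r : χ.range, χ (sec r) = r := fun r => (r.2).choose_spec
  let Q : Pt W Ω := ∑ r : χ.range, b (sec r)
  have hQ : ∀ z, Q = (Fintype.card χ.range) • b z + ac W z.1.2 Q := by
    intro z
    have h1 : Q = ∑ r : χ.range, b (sec ((⟨χ z, ⟨z, rfl⟩⟩ : χ.range) * r)) :=
      (Equiv.sum_comp (Equiv.mulLeft (⟨χ z, ⟨z, rfl⟩⟩ : χ.range)) fun r => b (sec r)).symm
    have h2 : ∀ r : χ.range, b (sec ((⟨χ z, ⟨z, rfl⟩⟩ : χ.range) * r)) =
        b z + ac W z.1.2 (b (sec r)) := by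
      intro r
      rw [← hb]
      apply hbχ
      rw [hsec, map_mul, hsec]
      rfl
    have h3 : ac W z.1.2 Q = ∑ r : χ.range, ac W z.1.2 (b (sec r)) := map_sum _ _ _
    rw [h3]
    refine h1.trans ?_
    rw [Finset.sum_congr rfl fun r _ => h2 r, Finset.sum_add_distrib, Finset.sum_const,
      Finset.card_univ]
  have hdvd : Fintype.card χ.range ∣ N := by
    have : IsCyclic χ.range := inferInstance
    have h1 : Monoid.exponent χ.range = Fintype.card χ.range := by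
      rw [IsCyclic.exponent_eq_card, Nat.card_eq_fintype_card]
    rw [← h1]
    apply Monoid.exponent_dvd_of_forall_pow_eq_one
    rintro ⟨r, z, rfl⟩
    apply Subtype.ext
    exact hχN z
  obtain ⟨c, hc⟩ := hdvd
  refine ⟨N • P - c • Q, fun g τ hgτ => ?_⟩
  have hmem : ((g.1, τ) : GQ × (Ω ≃ₐ[k] Ω)) ∈ G p ι := ⟨g.2, hgτ⟩
  have h1 := hQ ⟨(g.1, τ), hmem⟩
  have h2 : mapPt W ι (d g) = b ⟨(g.1, τ), hmem⟩ + (ac W τ P - P) := by
    change _ = (mapPt W ι (d g) - (ac W τ P - P)) + (ac W τ P - P)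
    rw [sub_add_cancel]
  have h3 : Fintype.card χ.range • b ⟨(g.1, τ), hmem⟩ = Q - ac W τ Q := by
    rw [eq_sub_iff_add_eq]
    exact h1.symm
  have h4 : N • b ⟨(g.1, τ), hmem⟩ = c • (Q - ac W τ Q) := by
    rw [← h3, ← mul_smul, mul_comm c, ← hc]
  change mapPt W ι ((N • d) g) = ac W τ (N • P - c • Q) - (N • P - c • Q)
  rw [Pi.smul_apply, map_nsmul, h2, smul_add, h4, map_sub, map_nsmul, map_nsmul, smul_sub,
    smul_sub]
  abel

end Pool.Agent.W822.KE
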